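import Pool.Agent.Helper95_CM.StK

/-!
# Module LFT of the CM project: lifts and divisibility in the iterated series rings
-/

set_option autoImplicit false
set_option linter.unusedSectionVars false

namespace Pool.Agent.Helper95_CM.H26

open HahnSeries

section

variable {G : Type} [AddCommGroup G] [LinearOrder G] [IsOrderedAddMonoid G]

theorem hmap_inj {R S : Type} [CommRing R] [CommRing S] (f : R →+* S)
    (hf : Function.Injective f) : Function.Injective (hmap (G := G) f) := by
  intro x y h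
  ext g
  apply hf
  rw [← hmap_coeff, ← hmap_coeff, h]

theorem C_dvd {R : Type} [CommRing R] (a : R) (x : HahnSeries G R) :
    (HahnSeries.C a : HahnSeries G R) ∣ x ↔ ∀ g, a ∣ x.coeff g := by
  classical
  constructor
  · rintro ⟨y, rfl⟩ g
    rw [HahnSeries.C_mul_eq_smul, HahnSeries.coeff_smul]
    exact ⟨_, rfl⟩
  · intro h
    choose y hy using h
    have h1 : (Function.support fun g => if x.coeff g = 0 then 0 else y g) ⊆ x.support := by
      intro g hg h0
      apply hg
      show (if x.coeff g = 0 then 0 else y g) = 0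
      rw [if_pos h0]
    refine ⟨⟨fun g => if x.coeff g = 0 then 0 else y g, x.isPWO_support.mono h1⟩, ?_⟩
    rw [HahnSeries.C_mul_eq_smul]
    ext g
    rw [HahnSeries.coeff_smul, smul_eq_mul]
    show x.coeff g = a * if x.coeff g = 0 then 0 else y g
    split_ifs with h0
    · rw [h0, mul_zero]
    · exact hy g

theorem pow_dvd {R : Type} [CommRing R] (p N : ℕ) (x : HahnSeries G R) :
    (p : HahnSeries G R) ^ N ∣ x ↔ ∀ g, (p : R) ^ N ∣ x.coeff g := by
  rw [← C_dvd]
  have h : (p : HahnSeries G R) ^ N = HahnSeries.C ((p : R) ^ N) := by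
    rw [map_pow, map_natCast]
  rw [h]

end

/-- MODULE LFT -/
theorem lft : LftStmt := by
  intro q p _
  have h1 : Function.Injective (mC q (zq p)) := hmap_inj _ (IsFractionRing.injective ℤ_[p] ℚ_[p])
  have h2 : Function.Injective (mO q (zq p)) := hmap_inj _ h1
  have h3 : ∀ (N : ℕ) (x : LL q ℤ_[p]), (p : LL q ℤ_[p]) ^ N ∣ x ↔
      ∀ m, (p : OO q ℤ_[p]) ^ N ∣ x.coeff m := fun N x => pow_dvd p N x
  have h4 : ∀ (N : ℕ) (x : OO q ℤ_[p]), (p : OO q ℤ_[p]) ^ N ∣ x ↔
      ∀ m, (p : CC q ℤ_[p]) ^ N ∣ x.coeff m := fun N x => pow_dvd p N x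
  have h5 : ∀ (N : ℕ) (x : CC q ℤ_[p]), (p : CC q ℤ_[p]) ^ N ∣ x ↔
      ∀ g, (p : ℤ_[p]) ^ N ∣ x.coeff g := fun N x => pow_dvd p N x
  refine ⟨hmap_inj _ h2, fun x => ?_, h3, h4, h5⟩
  have e3 := h3 1 x
  simp only [pow_one] at e3
  rw [e3]
  refine forall_congr' fun m => ?_
  have e4 := h4 1 (x.coeff m)
  simp only [pow_one] at e4
  rw [e4]
  refine forall_congr' fun m' => ?_
  have e5 := h5 1 ((x.coeff m).coeff m')
  simp only [pow_one] at e5
  exact e5

end Pool.Agent.Helper95_CM.H26
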